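import Pool.Agent.Helper27.BI.S5.St5
import Pool.Agent.Helper27.BI.GBasic

/-!
# Project BI, stage 5, module GHF (the family version of `StGH`)
-/

set_option autoImplicit false

open scoped Manifold ContDiff Topology ComplexConjugate
open Set Filter Pool.Agent.Helper65.Barb Pool.Agent.Helper18.BI
open Pool.Agent.Helper70.BI (I4 LD NearEq ld_iff)
open Pool.Agent.Helper27.BI (imp_image imp_off)

namespace Pool.Agent.Helper27.S5

namespace GHF

/-- near the image of `D` the transported family is `G ∘ h ∘ G⁻¹` -/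
theorem near {G : R4 → R4} {h : ℝ × R4 → R4} {D : Set R4}
    (hGI : InjOn G D) (Φ : PartialDiffeomorph 𝓘(ℝ, R4) I4 R4 R4 ∞) (hΦ1 : D ⊆ Φ.source)
    (hΦ2 : ∀ p ∈ Φ.source, Φ p = G p) {t : ℝ} {y : R4} (hy : y ∈ Φ.target)
    (hf : Φ.symm y ∉ D → h (t, Φ.symm y) = Φ.symm y) :
    imp G D (fun p => h (t, p)) y = G (h (t, Φ.symm y)) := by
  have hs : Φ.symm y ∈ Φ.source := Φ.map_target hy
  have h4 : G (Φ.symm y) = y := by
    rw [← hΦ2 _ hs]
    exact Φ.right_inv hy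
  by_cases hD : Φ.symm y ∈ D
  · have h5 : imp G D (fun p => h (t, p)) (G (Φ.symm y)) = G (h (t, Φ.symm y)) :=
      imp_image hGI hD
    rw [h4] at h5
    exact h5
  · rw [hf hD, h4]
    apply imp_off
    rintro ⟨r, hr, hrz⟩
    have hr1 : r ∈ Φ.source := hΦ1 hr
    have h6 : Φ r = y := by rw [hΦ2 r hr1, hrz]
    have h7 : Φ.symm y = r := by rw [← h6]; exact Φ.left_inv hr1
    rw [h7] at hD
    exact hD hr

end GHF

open GHF in
theorem m_GHF (hGH : StGH) : StGHF := by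
  intro G h D B hD hB hG hsm ht hfix K Θ Θ' hK hKs hΘ
  obtain ⟨Φ, hΦ1, hΦ2⟩ := hA1 R4 R4 R4 I4 R4 G D hD hG.1 hG.2
  have hGc : ContinuousOn G D := fun p hp =>
    ((hG.1 p hp).contMDiffAt.continuousAt).continuousWithinAt
  have hGDc : IsClosed (G '' D) := (hD.image_of_continuousOn hGc).isClosed
  -- joint smoothness
  have key : ∀ z ∈ Icc (0 : ℝ) 1 ×ˢ K,
      ∀ᶠ w : ℝ × R4 in 𝓝 z, ContDiffAt ℝ ∞ (fun w : ℝ × R4 => imp G D (fun p => h (w.1, p)) w.2) w := by
    rintro ⟨t, y⟩ ⟨htI, hyK⟩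
    by_cases hyD : y ∈ G '' D
    · obtain ⟨p, hp, hpy⟩ := hyD
      have hpB : p ∉ B := fun hb => hKs hyK ⟨p, ⟨hp, hb⟩, hpy⟩
      have hps : p ∈ Φ.source := hΦ1 hp
      have hΦp : Φ p = y := by rw [hΦ2 p hps, hpy]
      have hyt : y ∈ Φ.target := hΦp ▸ Φ.map_source hps
      have hsy : Φ.symm y = p := by
        rw [← hΦp]
        exact Φ.left_inv hps
      have hsymm : ∀ z ∈ Φ.target, ContDiffAt ℝ ∞ Φ.symm z := fun z hz =>
        (Φ.contMDiffOn_invFun.contMDiffAt (Φ.open_target.mem_nhds hz)).contDiffAt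
      -- the map `(s, z) ↦ (s, G⁻¹ z)`
      have c1 : ContinuousAt (fun w : ℝ × R4 => ((w.1, Φ.symm w.2) : ℝ × R4)) (t, y) := by
        apply ContinuousAt.prodMk continuousAt_fst
        exact ContinuousAt.comp (f := fun w : ℝ × R4 => w.2) (x := (t, y))
          (hsymm y hyt).continuousAt continuousAt_snd
      have e0 : ((t, Φ.symm y) : ℝ × R4) = (t, p) := by rw [hsy]
      have c2 : ∀ᶠ w : ℝ × R4 in 𝓝 (t, y), w.2 ∈ Φ.target :=
        continuousAt_snd.eventually (Φ.open_target.mem_nhds hyt)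
      have c3 : ∀ᶠ w : ℝ × R4 in 𝓝 (t, y), ContDiffAt ℝ ∞ h (w.1, Φ.symm w.2) := by
        apply c1.eventually
        show ∀ᶠ z in 𝓝 ((t, Φ.symm y) : ℝ × R4), ContDiffAt ℝ ∞ h z
        rw [e0]
        exact hsm t htI p ⟨hp, hpB⟩
      have c4 : ∀ᶠ w : ℝ × R4 in 𝓝 (t, y), Φ.symm w.2 ∉ D → h (w.1, Φ.symm w.2) = Φ.symm w.2 := by
        apply c1.eventually (p := fun z : ℝ × R4 => z.2 ∉ D → h z = z.2)
        show ∀ᶠ z in 𝓝 ((t, Φ.symm y) : ℝ × R4), z.2 ∉ D → h z = z.2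
        rw [e0]
        exact hfix t htI p ⟨hp, hpB⟩
      have hhp : h (t, p) ∈ D := (ht t htI).2.2 ⟨hp, hpB⟩
      have c5 : ∀ᶠ z in 𝓝 (h (t, p)), ContDiffAt ℝ ∞ G z := (ld_iff.1 (hG.1 _ hhp)).1
      have c6 : ContinuousAt (fun w : ℝ × R4 => h (w.1, Φ.symm w.2)) (t, y) := by
        have k : ContinuousAt h (t, Φ.symm y) := by
          rw [e0]
          exact (hsm t htI p ⟨hp, hpB⟩).self_of_nhds.continuousAt
        exact ContinuousAt.comp (f := fun w : ℝ × R4 => ((w.1, Φ.symm w.2) : ℝ × R4))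
          (x := (t, y)) k c1
      have c7 : ∀ᶠ w : ℝ × R4 in 𝓝 (t, y), ContDiffAt ℝ ∞ G (h (w.1, Φ.symm w.2)) := by
        apply c6.eventually
        show ∀ᶠ z in 𝓝 (h (t, Φ.symm y)), ContDiffAt ℝ ∞ G z
        rw [hsy]
        exact c5
      filter_upwards [c2, c3, c7, (c2.and c4).eventually_nhds] with w w2 w3 w7 w4
      have d1 : ContDiffAt ℝ ∞ (fun w : ℝ × R4 => ((w.1, Φ.symm w.2) : ℝ × R4)) w := by
        apply ContDiffAt.prodMk contDiffAt_fst
        exact ContDiffAt.comp (f := fun w : ℝ × R4 => w.2) w (hsymm _ w2) contDiffAt_snd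
      have d2 : ContDiffAt ℝ ∞ (fun w : ℝ × R4 => h (w.1, Φ.symm w.2)) w :=
        ContDiffAt.comp (f := fun w : ℝ × R4 => ((w.1, Φ.symm w.2) : ℝ × R4)) w w3 d1
      have d3 : ContDiffAt ℝ ∞ (fun w : ℝ × R4 => G (h (w.1, Φ.symm w.2))) w :=
        ContDiffAt.comp (f := fun w : ℝ × R4 => h (w.1, Φ.symm w.2)) w w7 d2
      refine d3.congr_of_eventuallyEq ?_
      filter_upwards [w4] with v hv
      exact near hG.2 Φ hΦ1 hΦ2 hv.1 hv.2
    · have c0 : ∀ᶠ z in 𝓝 y, z ∉ G '' D := hGDc.isOpen_compl.mem_nhds hyD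
      have c1 : ∀ᶠ w : ℝ × R4 in 𝓝 (t, y), w.2 ∉ G '' D :=
        (continuousAt_snd (p := ((t, y) : ℝ × R4))).eventually c0
      filter_upwards [c1.eventually_nhds] with w hw
      refine ContDiffAt.congr_of_eventuallyEq (contDiffAt_snd (𝕜 := ℝ) (E := ℝ) (F := R4)) ?_
      filter_upwards [hw] with v hv
      exact imp_off hv
  have hfam : FamOn I4 (fun w : ℝ × R4 => imp G D (fun p => h (w.1, p)) w.2) K := by
    constructor
    · refine ⟨interior {w | ContDiffAt ℝ ∞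
        (fun w : ℝ × R4 => imp G D (fun p => h (w.1, p)) w.2) w}, isOpen_interior, ?_, ?_⟩
      · intro z hz
        exact mem_interior_iff_mem_nhds.2 (key z hz)
      · intro w hw
        have hw' := interior_subset hw
        have hw2 : ContDiffAt ℝ ∞ (fun w : ℝ × R4 => imp G D (fun p => h (w.1, p)) w.2) w := hw'
        exact hw2.contMDiffAt.contMDiffWithinAt
    · intro t htI
      obtain ⟨h1, h2, h3⟩ := ht t htI
      have h4 := hGH G (fun p => h (t, p)) D B hD hB hG h1 h2 h3 (by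
        intro p hp
        have c : ContinuousAt (fun q : R4 => ((t, q) : ℝ × R4)) p :=
          (continuous_const.prodMk continuous_id).continuousAt
        exact c.eventually (hfix t htI p hp))
      exact ⟨fun y hy => h4.1 y (hKs hy), h4.2.mono hKs⟩
  exact hA3 R4 R4 I4 R4 (fun w : ℝ × R4 => imp G D (fun p => h (w.1, p)) w.2) K Θ Θ' hK hfam hΘ

end Pool.Agent.Helper27.S5
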