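import Pool.Agent.Helper27.BI.S5.Geo5

/-!
# Project BI, stage 5, module HE (the embedding defined by the big finger push)
-/

set_option autoImplicit false
set_option linter.unusedSectionVars false

open scoped Manifold ContDiff Topology ComplexConjugate
open Set Filter Pool.Agent.Helper65.Barb Pool.Agent.Helper18.BI
open Pool.Agent.Helper70.BI (I4 LD ld_iff ld_comp contDiff_dfam contDiff_dfam_inv)
open Pool.Agent.Helper34.BI (rade)
open Pool.Agent.Helper27.BI (e1 imp_image imp_off imp_congr)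
open Pool.Agent.Helper27.H

namespace Pool.Agent.Helper27.S5

namespace HE

/-- the closed set removed: the wall and the finger -/
def BB (δ : ℝ) (D : ArcD) : Set R4 := wallS δ ∪ {p | p.1 ∈ Icc D.s₀ D.s₁ ∧ p.2 = z0 p.1}

theorem isClosed_BB (δ : ℝ) (D : ArcD) : IsClosed (BB δ D) := by
  refine (Geo.isClosed_wallS δ).union ?_
  have h : Continuous fun p : R4 => z0 p.1 := contDiff_z0.continuous.comp continuous_fst
  exact (isClosed_Icc.preimage continuous_fst).inter (isClosed_eq continuous_snd h)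

theorem rsq_z0 (s : ℝ) : rsq 1 (s, z0 s) = bfin s ^ 2 := by
  rw [Geo.rsq1, Geo.z0_def]
  simp

section
variable {G T T' : R4 → R4} {δ c : ℝ} {D : ArcD} {H : DFam 𝓘(ℝ, R4) R4} (hB : FingB T T')
  (hδ : δ ∈ Ioo (0 : ℝ) (1 / 100)) (hG : EmbOn I4 G (K3 δ)) (hD : HatOk δ T' G D)
  (hH : THat T c H)
include hB hδ hG hD hH

theorem far {p : R4} (hp : p ∈ Reg δ \ BB δ D) : 1 / 25 - δ < rsq 1 p := by
  by_contra h
  push Not at h
  exact hp.2 (Or.inl ⟨hp.1.1, hp.1.2.1, hp.1.2.2.1, h⟩)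

theorem pos {p : R4} (hp : p ∈ Reg δ \ BB δ D) (t : ℝ) : 0 < rsq 1 (H.g (t, p)) := by
  rw [Geo.rsq1_pos_iff]
  intro h
  have h1 : H.g (t, p) = ((H.g (t, p)).1, e1) := Prod.ext rfl h
  have h2 := Geo.H_e1 hH h1
  set s := (H.g (t, p)).1
  have h3 := far hB hδ hG hD hH hp
  rw [h2, rsq_z0] at h3
  have h4 : s ∈ Ioo D.s₀ D.s₁ := by
    by_contra h5
    exact absurd (hD.b' s h5) (not_le.2 h3)
  exact hp.2 (Or.inr ⟨by rw [h2]; exact ⟨h4.1.le, h4.2.le⟩, by rw [h2]⟩)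

theorem maps (t : ℝ) : MapsTo (fun p => rade δ 1 (H.g (t, p))) (Reg δ \ BB δ D) (Reg δ) := by
  intro p hp
  obtain ⟨h1, h2, h3⟩ := Geo.H_reg_g hH (t := t) hp.1.1 hp.1.2.1 hp.1.2.2.2
  have h4 := pos hB hδ hG hD hH hp t
  refine ⟨h1, h2, Geo.rade_low' hδ h4, ?_⟩
  rcases le_or_gt (1 / 25 - δ) (rsq 1 (H.g (t, p))) with h | h
  · show rsq 1 (rade δ 1 (H.g (t, p))) ≤ _
    rw [Geo.rade_fix hδ h]
    exact h3
  · have := Geo.rade_lt hδ h4 h
    show rsq 1 (rade δ 1 (H.g (t, p))) ≤ _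
    linarith [hδ.1]

theorem ld {p : R4} (hp : p ∈ Reg δ \ BB δ D) (t : ℝ) :
    LD (fun p => rade δ 1 (H.g (t, p))) p := by
  have hf : ContDiff ℝ ∞ (fun q : R4 => H.f (t, q)) :=
    (contDiff_dfam H).comp (contDiff_prodMk_right t)
  have hg : ContDiff ℝ ∞ (fun q : R4 => H.g (t, q)) :=
    (contDiff_dfam_inv H).comp (contDiff_prodMk_right t)
  have l1 : LD (fun q : R4 => H.g (t, q)) p :=
    Geo.ld_of_inv hg hf (fun x => H.fg t x) (fun x => H.gf t x) p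
  exact ld_comp (F := rade δ 1) (m := fun q : R4 => H.g (t, q)) l1
    ((rade_emb hδ).1 _ (pos hB hδ hG hD hH hp t))

theorem inj (t : ℝ) : InjOn (fun p => rade δ 1 (H.g (t, p))) (Reg δ \ BB δ D) := by
  intro p hp q hq h
  have h1 := (rade_emb hδ).2 (pos hB hδ hG hD hH hp t) (pos hB hδ hG hD hH hq t) h
  rw [← H.fg t p, h1, H.fg]

theorem front {p : R4} (hp : p ∈ Reg δ \ BB δ D) (t : ℝ) :
    ∀ᶠ z : ℝ × R4 in 𝓝 (t, p), z.2 ∉ Reg δ → rade δ 1 (H.g z) = z.2 := by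
  have h1 : ∀ᶠ z : ℝ × R4 in 𝓝 (t, p), 1 / 25 - δ < rsq 1 z.2 := by
    have c : ContinuousAt (fun z : ℝ × R4 => rsq 1 z.2) (t, p) :=
      (Geo.continuous_rsq1.comp continuous_snd).continuousAt
    exact c.eventually (Ioi_mem_nhds (far hB hδ hG hD hH hp))
  filter_upwards [h1] with z hz hzR
  have h2 : z.2.1 ≤ 1 / 20 ∨ 19 / 20 ≤ z.2.1 ∨ 49 / 100 ≤ rsq 1 z.2 := by
    by_contra h
    push Not at h
    exact hzR ⟨by linarith [h.1], by linarith [h.2.1], by linarith [hδ.1], h.2.2.le⟩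
  have h3 : H.g z = z.2 := Geo.H_supp_g hH (t := z.1) h2
  rw [h3, Geo.rade_fix hδ hz.le]

theorem smooth {p : R4} (hp : p ∈ Reg δ \ BB δ D) (t : ℝ) :
    ∀ᶠ z : ℝ × R4 in 𝓝 (t, p), ContDiffAt ℝ ∞ (fun z => rade δ 1 (H.g z)) z := by
  have hg := contDiff_dfam_inv H
  have h1 : ∀ᶠ z : ℝ × R4 in 𝓝 (t, p), 0 < rsq 1 (H.g z) := by
    have c : ContinuousAt (fun z : ℝ × R4 => rsq 1 (H.g z)) (t, p) :=
      (Geo.continuous_rsq1.comp hg.continuous).continuousAt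
    exact c.eventually (Ioi_mem_nhds (pos hB hδ hG hD hH hp t))
  filter_upwards [h1] with z hz
  have h2 : ContDiffAt ℝ ∞ (rade δ 1) (H.g z) :=
    (ld_iff.1 ((rade_emb hδ).1 _ hz)).1.self_of_nhds
  exact ContDiffAt.comp (f := H.g) z h2 hg.contDiffAt

theorem compl : (G '' (Reg δ ∩ BB δ D))ᶜ = D.U \ D.A := by
  have h1 : G '' (Reg δ ∩ BB δ D) = G '' wallS δ ∪ D.A := by
    ext y
    constructor
    · rintro ⟨p, ⟨-, hp | ⟨h1, h2⟩⟩, rfl⟩
      · exact Or.inl ⟨p, hp, rfl⟩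
      · refine Or.inr ⟨(p.1, 0), ⟨h1.1, h1.2, rfl⟩, ?_⟩
        rw [hD.J]
        show G (p.1, z0 p.1 + 0) = G p
        rw [add_zero, ← h2]
    · rintro (⟨p, hp, rfl⟩ | ⟨p, ⟨h1, h2, h3⟩, rfl⟩)
      · exact ⟨p, ⟨⟨hp.1, hp.2.1, hp.2.2.1, by linarith [hp.2.2.2, hδ.1]⟩, Or.inl hp⟩, rfl⟩
      · rw [hD.J]
        show G (p.1, z0 p.1 + p.2) ∈ _
        rw [h3, add_zero]
        refine ⟨(p.1, z0 p.1), ⟨⟨?_, ?_, ?_, ?_⟩, Or.inr ⟨⟨h1, h2⟩, rfl⟩⟩, rfl⟩
        · show 0 ≤ p.1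
          linarith [hD.s₀.1]
        · show p.1 ≤ 1
          linarith [hD.s₁.2]
        · rw [rsq_z0]
          by_cases h4 : p.1 ∈ Ioo D.s₀ D.s₁
          · linarith [hD.b _ h4, hδ.1]
          · rcases h1.eq_or_lt with h5 | h5
            · rw [← h5, hD.b₀]
              linarith [hδ.1]
            · rcases h2.eq_or_lt with h6 | h6
              · rw [h6, hD.b₁]
                linarith [hδ.1]
              · exact absurd ⟨h5, h6⟩ h4
        · rw [rsq_z0]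
          have h5 := bfin_nonneg p.1
          have h6 := bfin_le p.1
          nlinarith
  rw [h1, compl_union, hD.U]
  rfl

theorem eqOn : EqOn D.e (imp G (Reg δ) (fun p => rade δ 1 (H.g (0, p)))) (D.U \ D.A) := by
  intro y hy
  have hDR : Dreg δ ⊆ Reg δ := fun p hp =>
    ⟨hp.1, hp.2.1, by linarith [hp.2.2.1, hδ.1], by linarith [hp.2.2.2]⟩
  have hg0 : ∀ p, H.g (0, p) = T' p := fun p => by
    have h1 : H.f (0, T' p) = p := by rw [hH.zero, hB.ok.right]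
    conv_lhs => rw [← h1]
    rw [H.gf]
  rw [← compl hB hδ hG hD hH] at hy
  rw [hD.e]
  by_cases hyR : y ∈ G '' Reg δ
  · obtain ⟨p, hp, rfl⟩ := hyR
    have hpB : p ∉ BB δ D := fun h => hy ⟨p, ⟨hp, h⟩, rfl⟩
    rw [imp_image (hG.2.mono Geo.Reg_K3) hp, hg0]
    by_cases hpD : p ∈ Dreg δ
    · rw [imp_image (hG.2.mono (hDR.trans Geo.Reg_K3)) hpD]
      rfl
    · rw [imp_off]
      · have h1 : 1 / 9 ≤ rsq 1 p := by
          by_contra h
          push Not at h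
          exact hpD ⟨hp.1, hp.2.1, (far hB hδ hG hD hH ⟨hp, hpB⟩).le, h.le⟩
        have h2 : e0 δ T' p = p := e0_far hB.ok hδ h1
        have h3 : rade δ 1 (T' p) = p := h2
        rw [h3]
      · rintro ⟨q, hq, hqp⟩
        have := hG.2 (Geo.Reg_K3 (hDR hq)) (Geo.Reg_K3 hp) hqp
        rw [this] at hq
        exact hpD hq
  · rw [imp_off hyR, imp_off]
    rintro ⟨q, hq, hqp⟩
    exact hyR ⟨q, hDR hq, hqp⟩

end

end HE

open HE in
theorem m_HE (hGH : StGH) (hGHF : StGHF) : StHE := by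
  intro G T T' δ c D H hB hδ hG hD hH
  have hGR : EmbOn I4 G (Reg δ) :=
    ⟨fun p hp => hG.1 p (Geo.Reg_K3 hp), hG.2.mono Geo.Reg_K3⟩
  have hc := compl hB hδ hG hD hH
  constructor
  · have h1 := hGH G (fun p => rade δ 1 (H.g (1, p))) (Reg δ) (BB δ D) (Geo.isCompact_Reg δ)
      (isClosed_BB δ D) hGR (fun p hp => ld hB hδ hG hD hH hp 1) (inj hB hδ hG hD hH 1)
      (maps hB hδ hG hD hH 1) (by
        intro p hp
        have c : ContinuousAt (fun q : R4 => (((1 : ℝ), q) : ℝ × R4)) p :=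
          (continuous_const.prodMk continuous_id).continuousAt
        exact c.eventually (front hB hδ hG hD hH hp 1))
    rw [hc] at h1
    exact h1
  · intro K Θ Θ' hK hKs hΘ
    have h1 := hGHF G (fun z => rade δ 1 (H.g z)) (Reg δ) (BB δ D) (Geo.isCompact_Reg δ)
      (isClosed_BB δ D) hGR (fun t _ p hp => smooth hB hδ hG hD hH hp t)
      (fun t _ => ⟨fun p hp => ld hB hδ hG hD hH hp t, inj hB hδ hG hD hH t,
        maps hB hδ hG hD hH t⟩)
      (fun t _ p hp => front hB hδ hG hD hH hp t) K Θ Θ' hK (by rw [hc]; exact hKs) hΘ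
    have h2 : imp D.e K Θ =
        imp (imp G (Reg δ) (fun p => rade δ 1 (H.g (0, p)))) K Θ :=
      imp_congr (D.embe.2.mono hKs) ((eqOn hB hδ hG hD hH).mono hKs)
        (A3.mapsTo hΘ.2.2.2.1 hΘ.2.2.2.2)
    rw [h2]
    exact h1

end Pool.Agent.Helper27.S5
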